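import Pool.Agent.H307R2.PW.Defs

set_option autoImplicit false

/-! # Task T2 of project PW: greedy choice of residue classes for the powers -/

namespace Pool.Agent.H307R2.PW

open Finset

open scoped Classical

/-- the number of values of `-x^d` modulo `p` -/
theorem t2_card (p d : ℕ) [hp : Fact p.Prime] (hd : 1 ≤ d) :
    ((univ : Finset (ZMod p)).image (fun x : ZMod p => -x ^ d)).card * Nat.gcd d (p - 1) ≤
      Nat.gcd d (p - 1) + (p - 1) := by
  set R : Subgroup (ZMod p)ˣ := (powMonoidHom d : (ZMod p)ˣ →* (ZMod p)ˣ).range with hR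
  have h1 : Nat.card R * Nat.gcd d (p - 1) = p - 1 := by
    have h2 := R.card_mul_index
    rw [hR, IsCyclic.index_powMonoidHom_range] at h2
    rw [← hR] at h2
    have h3 : Nat.card (ZMod p)ˣ = p - 1 := by
      rw [Nat.card_eq_fintype_card, ZMod.card_units_eq_totient, Nat.totient_prime hp.out]
    rw [h3, Nat.gcd_comm] at h2
    exact h2
  have h4 : ((univ : Finset (ZMod p)).image (fun x : ZMod p => -x ^ d)) ⊆
      insert 0 (((univ : Finset (ZMod p)ˣ).filter (fun u => u ∈ R)).image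
        (fun u : (ZMod p)ˣ => -(u : ZMod p))) := by
    intro c hc
    obtain ⟨x, -, rfl⟩ := mem_image.1 hc
    by_cases hx : x = 0
    · subst hx
      rw [zero_pow (by omega), neg_zero]
      exact mem_insert_self _ _
    · apply mem_insert_of_mem
      refine mem_image.2 ⟨(Units.mk0 x hx) ^ d, mem_filter.2 ⟨mem_univ _, ?_⟩, ?_⟩
      · exact ⟨Units.mk0 x hx, rfl⟩
      · rw [Units.val_pow_eq_pow_val, Units.val_mk0]
  have h5 := (card_le_card h4).trans (card_insert_le _ _)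
  have h6 : (((univ : Finset (ZMod p)ˣ).filter (fun u => u ∈ R)).image
        (fun u : (ZMod p)ˣ => -(u : ZMod p))).card ≤ Nat.card R := by
    refine card_image_le.trans (le_of_eq ?_)
    rw [Nat.card_eq_fintype_card]
    exact (Fintype.card_subtype _).symm
  calc _ ≤ (Nat.card R + 1) * Nat.gcd d (p - 1) := Nat.mul_le_mul_right _ (by omega)
    _ = Nat.gcd d (p - 1) + (p - 1) := by rw [add_mul, one_mul, h1, add_comm]

theorem t2_step (d : ℕ) (hd : 1 ≤ d) (p : ℕ) (hp : p.Prime) (R : Finset ℤ) :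
    ∃ c : ℤ, ((R.filter (fun m => ¬ (p : ℤ) ∣ c + m ^ d)).card : ℝ) ≤
      R.card * (1 - (gp d p : ℝ) / ((gp d p : ℝ) + (p : ℝ) - 1)) := by
  have : Fact p.Prime := ⟨hp⟩
  set T : Finset (ZMod p) := (univ : Finset (ZMod p)).image (fun x : ZMod p => -x ^ d) with hT
  have hTne : T.Nonempty := ⟨_, mem_image_of_mem _ (mem_univ 0)⟩
  have hdvd : ∀ (c : ZMod p) (m : ℤ), (p : ℤ) ∣ (c.val : ℤ) + m ^ d ↔ c = -(m : ZMod p) ^ d := by
    intro c m
    rw [← ZMod.intCast_zmod_eq_zero_iff_dvd]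
    push_cast
    rw [ZMod.natCast_zmod_val, eq_neg_iff_add_eq_zero]
  have hcard : (T.card : ℝ) * (gp d p : ℝ) ≤ (gp d p : ℝ) + (p : ℝ) - 1 := by
    have h := t2_card p d hd
    have h' : ((T.card * Nat.gcd d (p - 1) : ℕ) : ℝ) ≤ ((Nat.gcd d (p - 1) + (p - 1) : ℕ) : ℝ) := by
      exact_mod_cast h
    push_cast [Nat.cast_sub hp.one_lt.le] at h'
    unfold gp
    linarith
  have hT0 : (0 : ℝ) < T.card := by exact_mod_cast hTne.card_pos
  have hg0 : (0 : ℝ) < gp d p := by
    have : 0 < gp d p := Nat.gcd_pos_of_pos_left _ (by omega)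
    exact_mod_cast this
  have hp1 : (1 : ℝ) < p := by exact_mod_cast hp.one_lt
  have havg : ∃ c ∈ T, ((R.filter (fun m => ¬ (p : ℤ) ∣ (c.val : ℤ) + m ^ d)).card : ℝ) ≤
      R.card * (1 - 1 / (T.card : ℝ)) := by
    by_contra hcon
    push Not at hcon
    have h1 := sum_lt_sum_of_nonempty hTne hcon
    rw [sum_const, nsmul_eq_mul] at h1
    have h2 : ∑ c ∈ T, ((R.filter (fun m => ¬ (p : ℤ) ∣ (c.val : ℤ) + m ^ d)).card : ℝ) =
        ∑ m ∈ R, ((T.filter (fun c => ¬ (p : ℤ) ∣ (c.val : ℤ) + m ^ d)).card : ℝ) := by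
      simp_rw [card_filter]
      push_cast
      rw [sum_comm]
    have h3 : ∀ m ∈ R, ((T.filter (fun c => ¬ (p : ℤ) ∣ (c.val : ℤ) + m ^ d)).card : ℝ) =
        (T.card : ℝ) - 1 := by
      intro m _
      have h4 : T.filter (fun c => ¬ (p : ℤ) ∣ (c.val : ℤ) + m ^ d) =
          T.erase (-(m : ZMod p) ^ d) := by
        ext c
        rw [mem_filter, mem_erase, hdvd, and_comm]
      have h5 : -(m : ZMod p) ^ d ∈ T := mem_image_of_mem _ (mem_univ (m : ZMod p))
      rw [h4, card_erase_of_mem h5, Nat.cast_sub (Nat.succ_le_of_lt hTne.card_pos)]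
      simp
    rw [h2, sum_congr rfl h3, sum_const, nsmul_eq_mul] at h1
    apply lt_irrefl _ (lt_of_lt_of_eq h1 _)
    field_simp
  obtain ⟨c, hc, hle⟩ := havg
  refine ⟨(c.val : ℤ), hle.trans ?_⟩
  apply mul_le_mul_of_nonneg_left _ (Nat.cast_nonneg _)
  have h6 : (gp d p : ℝ) / ((gp d p : ℝ) + (p : ℝ) - 1) ≤ 1 / (T.card : ℝ) := by
    rw [div_le_div_iff₀ (by linarith) hT0]
    linarith
  linarith

theorem t2 : GreedyStmt := by
  intro d hd S
  induction S using Finset.induction_on with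
  | empty =>
    intro _ R
    exact ⟨fun _ => 0, by simp⟩
  | insert p S hpS ih =>
    intro hS R
    have hp := hS p (mem_insert_self _ _)
    obtain ⟨c, hle⟩ := t2_step d hd p hp R
    obtain ⟨a, ha⟩ := ih (fun q hq => hS q (mem_insert_of_mem hq))
      (R.filter (fun m => ¬ (p : ℤ) ∣ c + m ^ d))
    refine ⟨Function.update a p c, ?_⟩
    have h8 : R.filter (fun m => ∀ q ∈ insert p S, ¬ (q : ℤ) ∣ Function.update a p c q + m ^ d) ⊆
        (R.filter (fun m => ¬ (p : ℤ) ∣ c + m ^ d)).filter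
          (fun m => ∀ q ∈ S, ¬ (q : ℤ) ∣ a q + m ^ d) := by
      intro k hk
      rw [mem_filter] at hk
      rw [mem_filter, mem_filter]
      refine ⟨⟨hk.1, ?_⟩, ?_⟩
      · have := hk.2 p (mem_insert_self _ _)
        rwa [Function.update_self] at this
      · intro q hq
        have h9 : q ≠ p := fun h => hpS (h ▸ hq)
        have := hk.2 q (mem_insert_of_mem hq)
        rwa [Function.update_of_ne h9] at this
    have h10 : (0 : ℝ) ≤ ∏ q ∈ S, (1 - (gp d q : ℝ) / ((gp d q : ℝ) + (q : ℝ) - 1)) := by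
      apply prod_nonneg
      intro q hq
      have hq1 : (1 : ℝ) < q := by exact_mod_cast (hS q (mem_insert_of_mem hq)).one_lt
      have hg0 : (0 : ℝ) ≤ gp d q := Nat.cast_nonneg _
      rw [sub_nonneg, div_le_one (by linarith)]
      linarith
    calc ((R.filter (fun m => ∀ q ∈ insert p S,
          ¬ (q : ℤ) ∣ Function.update a p c q + m ^ d)).card : ℝ)
        ≤ (((R.filter (fun m => ¬ (p : ℤ) ∣ c + m ^ d)).filter
          (fun m => ∀ q ∈ S, ¬ (q : ℤ) ∣ a q + m ^ d)).card : ℝ) := by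
          exact_mod_cast card_le_card h8
      _ ≤ ((R.filter (fun m => ¬ (p : ℤ) ∣ c + m ^ d)).card : ℝ) *
          ∏ q ∈ S, (1 - (gp d q : ℝ) / ((gp d q : ℝ) + (q : ℝ) - 1)) := ha
      _ ≤ (R.card * (1 - (gp d p : ℝ) / ((gp d p : ℝ) + (p : ℝ) - 1))) *
          ∏ q ∈ S, (1 - (gp d q : ℝ) / ((gp d q : ℝ) + (q : ℝ) - 1)) :=
          mul_le_mul_of_nonneg_right hle h10
      _ = _ := by rw [prod_insert hpS]; ring

end Pool.Agent.H307R2.PW
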